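import Pool.Agent.Helper82.EN.All

set_option autoImplicit false

namespace Pool.Agent.Results.MP_3da4bb_lc.EncodingByTM

open Pool.Agent.Helper82.EN

/-- ENCODING BY TM is NP-complete, whether the machine has to halt after `|y|` steps
(`EncTMHalt`) or not (`EncTM`), and so is NP-hard every problem between ENCODING BY FST and
ENCODING BY TM. -/
theorem result : NPComplete EncTM ∧ NPComplete EncTMHalt ∧
    ∀ L : Inst → Prop, (∀ I, EncFST I → L I) → (∀ I, L I → EncTM I) → NPHard L :=
  en_all

end Pool.Agent.Results.MP_3da4bb_lc.EncodingByTM
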